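import Pool.Agent.V8H46.GC.Main

/-!
# Classes of refutations with few path patterns
-/

set_option autoImplicit false

namespace Pool.Agent.V8H46.GC

open Finset

variable {V : Type} [DecidableEq V] {S : Cedent V} (R : Refutation S)

/-- with respect to the assignment `A` no literal that is true under `A` is resolved upon twice on
a path: if `i` is obtained from `a` (with the literal `l`) and `b` (with its complement), then `l`
is not resolved upon on any path from `a` to an occurrence of an initial clause that contains `l`,
if `l` is true under `A`, and in the same way for `b` and the complement of `l` -/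
def Refutation.OneSidedRegular {V : Type} [DecidableEq V] {S : Cedent V} (R : Refutation S)
    (A : V → Bool) : Prop := ∀ i, R.Needed i → ∀ a b l, R.step i = Step.res a b l →
  (l.2 = A l.1 → ∀ C X, R.Path a C X → l ∉ X) ∧
    ((neg l).2 = A (neg l).1 → ∀ C X, R.Path b C X → neg l ∉ X)

lemma needed_le {i : ℕ} (h : R.Needed i) : i ≤ R.n := by
  induction h with
  | last => exact le_rfl
  | left i a b l _ hs ih => exact (R.res_ok i ih a b l hs).1.le.trans ih
  | right i a b l _ hs ih => exact (R.res_ok i ih a b l hs).2.1.le.trans ih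

lemma card_le_csize (S : Cedent V) : S.card + 1 ≤ csize S := by
  rw [csize_eq]
  have : S.card ≤ csum S := by
    unfold csum
    calc S.card = ∑ _C ∈ S, 1 := by simp
      _ ≤ _ := Finset.sum_le_sum (fun C _ => by omega)
  omega

lemma size_pos : 1 ≤ R.size := by
  unfold Refutation.size
  have : (R.line 0).card + 1 ≤ ∑ i ∈ Finset.range (R.n + 1), ((R.line i).card + 1) :=
    Finset.single_le_sum (f := fun i => (R.line i).card + 1) (fun _ _ => Nat.zero_le _)
      (Finset.mem_range.2 (by omega))
  omega

omit [DecidableEq V] in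
lemma tr_mono (A : V → Bool) {C D : Clause V} (h : C ⊆ D) : tr A C ⊆ tr A D :=
  Finset.filter_subset_filter _ h

theorem one_sided (h0 : (∅ : Clause V) ∉ S) (A : V → Bool) (k : ℕ)
    (hk : ∀ C ∈ S, (tr A C).card ≤ k) :
    ∃ L : List (Cedent V), GProof (S :: L) ∧
      gsize (S :: L) ≤ 35 * 2 ^ k * (R.size + csize S) ^ 4 := by
  have hcS := card_le_csize S
  have h1 : 1 ≤ 2 ^ k * (R.size + csize S) := Nat.mul_pos (by positivity) (by omega)
  obtain ⟨L, hL, hsz⟩ := simulate R h0 A (2 ^ k * (R.size + csize S)) h1 (by
    intro i hi _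
    refine ⟨S.biUnion (fun C => (tr A C).powerset.image (fun Y => (C, Y))), ?_, ?_⟩
    · refine Finset.card_biUnion_le.trans ?_
      have : ∑ C ∈ S, ((tr A C).powerset.image (fun Y => (C, Y))).card ≤ ∑ _C ∈ S, 2 ^ k := by
        refine Finset.sum_le_sum (fun C hC => ?_)
        refine Finset.card_image_le.trans ?_
        rw [Finset.card_powerset]
        exact Nat.pow_le_pow_right (by norm_num) (hk C hC)
      refine this.trans ?_
      rw [Finset.sum_const, smul_eq_mul, mul_comm]
      exact Nat.mul_le_mul_left _ (by omega)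
    · intro C X hX
      obtain ⟨g1, g2, _⟩ := path_props R hX hi
      rw [Finset.mem_biUnion]
      refine ⟨C, g1, ?_⟩
      rw [Finset.mem_image]
      exact ⟨tr A X, Finset.mem_powerset.2 (tr_mono A g2), rfl⟩)
  refine ⟨L, hL, hsz.trans (le_of_eq ?_)⟩
  ring

theorem few (h0 : (∅ : Clause V) ∉ S) (A : V → Bool)
    (hF : ∀ i ≤ R.n, R.Needed i → ∃ F : Finset (Clause V × Clause V), F.card ≤ S.card + 1 ∧
      ∀ C X, R.Path i C X → (C, tr A X) ∈ F) :
    ∃ L : List (Cedent V), GProof (S :: L) ∧
      gsize (S :: L) ≤ 35 * (R.size + csize S) ^ 4 := by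
  have hcS := card_le_csize S
  obtain ⟨L, hL, hsz⟩ := simulate R h0 A (R.size + csize S) (by omega) (by
    intro i hi hn
    obtain ⟨F, hF1, hF2⟩ := hF i hi hn
    exact ⟨F, by omega, hF2⟩)
  refine ⟨L, hL, hsz.trans (le_of_eq ?_)⟩
  ring

lemma regular_path (A : V → Bool) (hR : R.OneSidedRegular A) {i : ℕ} (hi : R.Needed i) :
    ∀ C X l, R.Path i C X → l ∈ X → l.2 = A l.1 → l ∉ R.line i := by
  induction hi with
  | last =>
    intro C X l _ _ _
    rw [R.last]
    exact Finset.notMem_empty _
  | left i a b l0 hn hs ih =>
    intro C X l hX hl hA hla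
    obtain ⟨_, _, _, _, h5, _⟩ := R.res_ok i (needed_le R hn) a b l0 hs
    by_cases h : l = l0
    · rw [h] at hl hA
      exact (hR i hn a b l0 hs).1 hA C X hX hl
    · exact ih C _ l (Refutation.Path.left i a b l0 C X hs hX) (Finset.mem_union_left _ hl) hA
        (h5 (Finset.mem_erase.2 ⟨h, hla⟩))
  | right i a b l0 hn hs ih =>
    intro C X l hX hl hA hlb
    obtain ⟨_, _, _, _, _, h6⟩ := R.res_ok i (needed_le R hn) a b l0 hs
    by_cases h : l = neg l0
    · rw [h] at hl hA
      exact (hR i hn a b l0 hs).2 hA C X hX hl
    · exact ih C _ l (Refutation.Path.right i a b l0 C X hs hX) (Finset.mem_union_left _ hl) hA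
        (h6 (Finset.mem_erase.2 ⟨h, hlb⟩))

theorem one_sided_regular (h0 : (∅ : Clause V) ∉ S) (A : V → Bool) (hR : R.OneSidedRegular A) :
    ∃ L : List (Cedent V), GProof (S :: L) ∧
      gsize (S :: L) ≤ 35 * (R.size + csize S) ^ 4 := by
  refine few R h0 A ?_
  intro i hi hn
  refine ⟨S.image (fun C => (C, tr A (C \ R.line i))), Finset.card_image_le.trans (by omega), ?_⟩
  intro C X hX
  obtain ⟨g1, g2, g3⟩ := path_props R hX hi
  rw [Finset.mem_image]
  refine ⟨C, g1, ?_⟩
  have : tr A (C \ R.line i) = tr A X := by
    ext l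
    unfold tr
    rw [Finset.mem_filter, Finset.mem_filter, Finset.mem_sdiff]
    constructor
    · rintro ⟨⟨h1, h2⟩, h3⟩
      refine ⟨?_, h3⟩
      by_contra h4
      exact h2 (g3 (Finset.mem_sdiff.2 ⟨h1, h4⟩))
    · rintro ⟨h1, h2⟩
      exact ⟨⟨g2 h1, regular_path R A hR hn C X l hX h1 h2⟩, h2⟩
  rw [this]

lemma tr_eq_of_false (A : V → Bool) {C X Y F : Clause V} (h1 : C \ X ⊆ F)
    (h2 : ∀ m ∈ F, m.2 ≠ A m.1) (h3 : X ⊆ Y) (h4 : Y ⊆ C) : tr A Y = tr A C := by
  refine Finset.Subset.antisymm (tr_mono A h4) ?_
  intro l hl
  unfold tr at hl ⊢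
  rw [Finset.mem_filter] at hl ⊢
  refine ⟨?_, hl.2⟩
  by_contra h
  exact h2 l (h1 (Finset.mem_sdiff.2 ⟨hl.1, fun h' => h (h3 h')⟩)) hl.2

lemma semantic_path (A : V → Bool) (hR : R.Semantic A) (i : ℕ) :
    i ≤ R.n → R.Needed i → ∃ q : Clause V × Clause V, ∀ C X, R.Path i C X →
      tr A X = tr A C ∨ (C = q.1 ∧ tr A X = q.2) := by
  induction i using Nat.strong_induction_on with
  | _ i ih =>
    intro hi hn
    rcases hst : R.step i with _ | ⟨a, b, l⟩
    · refine ⟨(R.line i, tr A ∅), ?_⟩
      intro C X hX
      cases hX with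
      | leaf _ _ => right; exact ⟨rfl, rfl⟩
      | left _ a' b' l' _ _ hi' _ => rw [hst] at hi'; exact absurd hi' (by simp)
      | right _ a' b' l' _ _ hi' _ => rw [hst] at hi'; exact absurd hi' (by simp)
    · obtain ⟨h1, h2, h3, h4, h5, h6⟩ := R.res_ok i hi a b l hst
      have hna : R.Needed a := Refutation.Needed.left i a b l hn hst
      have hnb : R.Needed b := Refutation.Needed.right i a b l hn hst
      rcases hR i hn a b l hst with hf | hf
      · obtain ⟨q, hq⟩ := ih b h2 (by omega) hnb
        refine ⟨(q.1, q.2 ∪ tr A ({neg l} ∩ q.1)), ?_⟩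
        intro C X hX
        cases hX with
        | leaf _ hi' => rw [hst] at hi'; exact absurd hi' (by simp)
        | left _ a' b' l' _ X' hi' hX' =>
          rw [hst] at hi'
          injection hi' with e1 e2 e3
          subst e1; subst e2; subst e3
          obtain ⟨g1, g2, g3⟩ := path_props R hX' (by omega)
          left
          exact tr_eq_of_false A g3 hf Finset.subset_union_left
            (Finset.union_subset g2 Finset.inter_subset_right)
        | right _ a' b' l' _ X' hi' hX' =>
          rw [hst] at hi'
          injection hi' with e1 e2 e3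
          subst e1; subst e2; subst e3
          obtain ⟨g1, g2, g3⟩ := path_props R hX' (by omega)
          rcases hq C X' hX' with h | ⟨h, h'⟩
          · left
            refine Finset.Subset.antisymm
              (tr_mono A (Finset.union_subset g2 Finset.inter_subset_right)) ?_
            rw [← h]
            exact tr_mono A Finset.subset_union_left
          · right
            refine ⟨h, ?_⟩
            have : tr A (X' ∪ ({neg l} ∩ C)) = tr A X' ∪ tr A ({neg l} ∩ C) := by
              unfold tr; rw [Finset.filter_union]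
            rw [this, h', h]
      · obtain ⟨q, hq⟩ := ih a h1 (by omega) hna
        refine ⟨(q.1, q.2 ∪ tr A ({l} ∩ q.1)), ?_⟩
        intro C X hX
        cases hX with
        | leaf _ hi' => rw [hst] at hi'; exact absurd hi' (by simp)
        | right _ a' b' l' _ X' hi' hX' =>
          rw [hst] at hi'
          injection hi' with e1 e2 e3
          subst e1; subst e2; subst e3
          obtain ⟨g1, g2, g3⟩ := path_props R hX' (by omega)
          left
          exact tr_eq_of_false A g3 hf Finset.subset_union_left
            (Finset.union_subset g2 Finset.inter_subset_right)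
        | left _ a' b' l' _ X' hi' hX' =>
          rw [hst] at hi'
          injection hi' with e1 e2 e3
          subst e1; subst e2; subst e3
          obtain ⟨g1, g2, g3⟩ := path_props R hX' (by omega)
          rcases hq C X' hX' with h | ⟨h, h'⟩
          · left
            refine Finset.Subset.antisymm
              (tr_mono A (Finset.union_subset g2 Finset.inter_subset_right)) ?_
            rw [← h]
            exact tr_mono A Finset.subset_union_left
          · right
            refine ⟨h, ?_⟩
            have : tr A (X' ∪ ({l} ∩ C)) = tr A X' ∪ tr A ({l} ∩ C) := by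
              unfold tr; rw [Finset.filter_union]
            rw [this, h', h]

theorem semantic (h0 : (∅ : Clause V) ∉ S) (A : V → Bool) (hR : R.Semantic A) :
    ∃ L : List (Cedent V), GProof (S :: L) ∧
      gsize (S :: L) ≤ 35 * (R.size + csize S) ^ 4 := by
  refine few R h0 A ?_
  intro i hi hn
  obtain ⟨q, hq⟩ := semantic_path R A hR i hi hn
  refine ⟨insert q (S.image (fun C => (C, tr A C))), ?_, ?_⟩
  · exact (Finset.card_insert_le _ _).trans (Nat.add_le_add_right Finset.card_image_le 1)
  · intro C X hX
    obtain ⟨g1, _, _⟩ := path_props R hX hi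
    rw [Finset.mem_insert, Finset.mem_image]
    rcases hq C X hX with h | ⟨h, h'⟩
    · right; exact ⟨C, g1, by rw [h]⟩
    · left; rw [h, h']

/-- a path which resolves the literal `l` contains an inference on the variable of `l` -/
lemma resolvedAbove_of_path {i : ℕ} {C X : Clause V} (h : R.Path i C X) :
    ∀ l ∈ X, R.ResolvedAbove i l.1 := by
  induction h with
  | leaf i hi => intro l hl; exact absurd hl (Finset.notMem_empty _)
  | left i a b l0 C X hs _ ih =>
    intro l hl
    rw [Finset.mem_union, Finset.mem_inter, Finset.mem_singleton] at hl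
    rcases hl with hl | ⟨hl, _⟩
    · exact Refutation.ResolvedAbove.left i a b l0 _ hs (ih l hl)
    · rw [hl]
      exact Refutation.ResolvedAbove.here i a b _ hs
  | right i a b l0 C X hs _ ih =>
    intro l hl
    rw [Finset.mem_union, Finset.mem_inter, Finset.mem_singleton] at hl
    rcases hl with hl | ⟨hl, _⟩
    · exact Refutation.ResolvedAbove.right i a b l0 _ hs (ih l hl)
    · rw [hl]
      exact Refutation.ResolvedAbove.here i a b l0 hs

/-- regular refutations are one-sided regular with respect to every assignment -/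
lemma oneSidedRegular_of_regular (A : V → Bool) (hR : R.Regular) : R.OneSidedRegular A := by
  intro i hi a b l hs
  obtain ⟨h1, h2⟩ := hR i hi a b l hs
  refine ⟨fun _ C X hX hl => h1 (resolvedAbove_of_path R hX l hl), fun _ C X hX hl => h2 ?_⟩
  exact resolvedAbove_of_path R hX (neg l) hl

end Pool.Agent.V8H46.GC
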