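import Mathlib

/-!
# GCNF and resolution: definitions

A literal is a pair of a variable and a sign, a clause is a finite set of literals, a cedent is a
finite set of clauses. Proofs of GCNF are in DAG form: lists of cedents, the latest cedent first.
-/

set_option autoImplicit false

namespace Pool.Agent.V8H46.GC

variable {V : Type} [DecidableEq V]

/-- the complement of a literal -/
def neg (l : V × Bool) : V × Bool := (l.1, !l.2)

abbrev Clause (V : Type) := Finset (V × Bool)

abbrev Cedent (V : Type) := Finset (Finset (V × Bool))

/-- A cedent that is an initial cedent of GCNF, or follows from the cedents in the list `L` by the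
structural rule or by the logical rule with auxiliary literal `l` (from `Γ, C_1, …, C_k` and
`Π, {l}` infer `Γ ∪ Π, C_1 ∪ {l}, …, C_k ∪ {l}`; here `K` is the set of the clauses `C_i`). -/
inductive GStep (L : List (Cedent V)) : Cedent V → Prop
  | init (l : V × Bool) : GStep L {{l}, {neg l}}
  | struct (G D : Cedent V) : G ∈ L → GStep L (G ∪ D)
  | logic (G P K : Cedent V) (l : V × Bool) : K.Nonempty → G ∪ K ∈ L → insert {l} P ∈ L →
      GStep L (G ∪ P ∪ K.image (fun C => insert l C))

/-- proofs of GCNF in DAG form, the latest cedent first -/
inductive GProof : List (Cedent V) → Prop
  | nil : GProof []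
  | cons (L : List (Cedent V)) (c : Cedent V) : GProof L → GStep L c → GProof (c :: L)

/-- the size of a cedent: every literal and every clause is counted, and one for the cedent -/
def csize (c : Cedent V) : ℕ := 1 + ∑ C ∈ c, (C.card + 1)

/-- the size of a list of cedents -/
def gsize (L : List (Cedent V)) : ℕ := (L.map csize).sum

/-- the justification of a line of a resolution refutation: an initial clause, or a resolvent of
the lines `a` (which contains `l`) and `b` (which contains the complement of `l`) -/
inductive Step (V : Type)
  | init : Step V
  | res (a b : ℕ) (l : V × Bool) : Step V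

/-- A resolution refutation of `S` in DAG form, with the lines `0, …, n`; weakening of the
resolvents is allowed. -/
structure Refutation (S : Cedent V) where
  n : ℕ
  line : ℕ → Clause V
  step : ℕ → Step V
  init_ok : ∀ i ≤ n, step i = Step.init → line i ∈ S
  res_ok : ∀ i ≤ n, ∀ a b l, step i = Step.res a b l → a < i ∧ b < i ∧ l ∈ line a ∧
    neg l ∈ line b ∧ (line a).erase l ⊆ line i ∧ (line b).erase (neg l) ⊆ line i
  last : line n = ∅

namespace Refutation

variable {S : Cedent V} (R : Refutation S)

/-- the size: the number of the symbols of all lines -/
def size : ℕ := ∑ i ∈ Finset.range (R.n + 1), ((R.line i).card + 1)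

/-- the lines which are used in the derivation of the last line -/
inductive Needed : ℕ → Prop
  | last : Needed R.n
  | left (i a b : ℕ) (l : V × Bool) : Needed i → R.step i = Step.res a b l → Needed a
  | right (i a b : ℕ) (l : V × Bool) : Needed i → R.step i = Step.res a b l → Needed b

/-- `Path i C X`: there is a path from the line `i` upwards to an occurrence of the initial clause
`C`, and `X` is the set of the literals of `C` which are resolved upon on this path -/
inductive Path : ℕ → Clause V → Clause V → Prop
  | leaf (i : ℕ) : R.step i = Step.init → Path i (R.line i) ∅
  | left (i a b : ℕ) (l : V × Bool) (C X : Clause V) : R.step i = Step.res a b l →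
      Path a C X → Path i C (X ∪ ({l} ∩ C))
  | right (i a b : ℕ) (l : V × Bool) (C X : Clause V) : R.step i = Step.res a b l →
      Path b C X → Path i C (X ∪ ({neg l} ∩ C))

/-- the variable `v` is resolved upon on some path which starts in the line `i` and leads upwards
to the initial clauses -/
inductive ResolvedAbove : ℕ → V → Prop
  | here (i a b : ℕ) (l : V × Bool) : R.step i = Step.res a b l → ResolvedAbove i l.1
  | left (i a b : ℕ) (l : V × Bool) (v : V) : R.step i = Step.res a b l →
      ResolvedAbove a v → ResolvedAbove i v
  | right (i a b : ℕ) (l : V × Bool) (v : V) : R.step i = Step.res a b l →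
      ResolvedAbove b v → ResolvedAbove i v

/-- regular refutations: on no path a variable is resolved upon twice -/
def Regular : Prop := ∀ i, R.Needed i → ∀ a b l, R.step i = Step.res a b l →
  ¬ R.ResolvedAbove a l.1 ∧ ¬ R.ResolvedAbove b l.1

/-- semantic resolution with respect to the assignment `A`: at every inference one of the two
premises is false under `A`. For the assignment with all values `false` (`true`) this is
positive (negative) resolution. -/
def Semantic (A : V → Bool) : Prop := ∀ i, R.Needed i → ∀ a b l, R.step i = Step.res a b l →
  (∀ m ∈ R.line a, m.2 ≠ A m.1) ∨ (∀ m ∈ R.line b, m.2 ≠ A m.1)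

end Refutation

/-- the literals of `C` which are true under the assignment `A` -/
def tr (A : V → Bool) (C : Clause V) : Clause V := C.filter (fun l => l.2 = A l.1)

end Pool.Agent.V8H46.GC
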