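import Pool.Agent.V8H46.GC.Defs

/-!
# GCNF simulates resolution refutations with few path patterns

The state of a line `i`: for every path upwards to an initial clause `C` the clause which consists
of the literals of `C` that are false under `A`, and of those true under `A` which are resolved
upon on the path; in addition the unit clauses of the complements of the literals of the line that
are false under `A`.
-/

set_option autoImplicit false

namespace Pool.Agent.V8H46.GC

open Finset

variable {V : Type} [DecidableEq V]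

/-- the sum of the sizes of the clauses -/
def csum (c : Cedent V) : ℕ := ∑ C ∈ c, (C.card + 1)

lemma csize_eq (c : Cedent V) : csize c = 1 + csum c := rfl

lemma csum_union (c d : Cedent V) : csum (c ∪ d) ≤ csum c + csum d := by
  unfold csum
  have := Finset.sum_union_inter (s₁ := c) (s₂ := d) (f := fun C => C.card + 1)
  omega

lemma csum_insert (C : Clause V) (c : Cedent V) : csum (insert C c) ≤ (C.card + 1) + csum c := by
  have h := csum_union ({C} : Cedent V) c
  have h2 : csum ({C} : Cedent V) = C.card + 1 := by simp [csum]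
  rw [Finset.insert_eq]
  omega

lemma csum_image_le (K : Cedent V) (g : Clause V → Clause V) (h : ∀ C ∈ K, (g C).card ≤ C.card) :
    csum (K.image g) ≤ csum K := by
  induction K using Finset.induction_on with
  | empty => simp [csum]
  | insert C K hC ih =>
    rw [Finset.image_insert]
    have h1 := csum_insert (g C) (K.image g)
    have h2 := ih (fun D hD => h D (Finset.mem_insert_of_mem hD))
    have h3 : csum (insert C K) = (C.card + 1) + csum K := by
      unfold csum; rw [Finset.sum_insert hC]
    have h4 := h C (Finset.mem_insert_self _ _)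
    omega

lemma csum_mono {c d : Cedent V} (h : c ⊆ d) : csum c ≤ csum d :=
  Finset.sum_le_sum_of_subset h

lemma csum_le (c : Cedent V) (m w : ℕ) (h1 : c.card ≤ m) (h2 : ∀ C ∈ c, C.card ≤ w) :
    csum c ≤ m * (w + 1) := by
  unfold csum
  have : ∑ C ∈ c, (C.card + 1) ≤ ∑ _C ∈ c, (w + 1) :=
    Finset.sum_le_sum (fun C hC => by have := h2 C hC; omega)
  rw [Finset.sum_const, smul_eq_mul] at this
  exact this.trans (Nat.mul_le_mul_right _ h1)

lemma gsize_cons (c : Cedent V) (L : List (Cedent V)) : gsize (c :: L) = csize c + gsize L := by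
  simp [gsize]

/-- the unit clauses of the complements of the literals of `F` -/
def un (F : Clause V) : Cedent V := F.image (fun m => ({neg m} : Clause V))

/-- the cedent of a leaf -/
def T (F : Clause V) : Cedent V := insert F (un F)

lemma csum_un (F : Clause V) : csum (un F) ≤ 2 * F.card := by
  have := csum_le (un F) F.card 1 Finset.card_image_le (by
    intro C hC
    unfold un at hC
    rw [Finset.mem_image] at hC
    obtain ⟨m, _, rfl⟩ := hC
    simp)
  omega

lemma csize_T (F : Clause V) : csize (T F) ≤ 3 * F.card + 2 := by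
  have h1 := csum_insert F (un F)
  have h2 := csum_un F
  rw [csize_eq]
  unfold T
  omega

lemma csize_ax (l : V × Bool) : csize ({{l}, {neg l}} : Cedent V) ≤ 5 := by
  have h1 := csum_insert ({l} : Clause V) ({{neg l}} : Cedent V)
  have h2 : csum ({{neg l}} : Cedent V) = 2 := by simp [csum]
  rw [csize_eq]
  simp only [Finset.card_singleton] at h1
  omega

lemma leaf_chain (L : List (Cedent V)) (hL : GProof L) (F : Clause V) (hF : F.Nonempty) :
    ∃ M : List (Cedent V), GProof M ∧ (∀ c ∈ L, c ∈ M) ∧ T F ∈ M ∧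
      gsize M ≤ gsize L + F.card * (3 * F.card + 7) := by
  induction hF using Finset.Nonempty.cons_induction with
  | singleton m =>
    refine ⟨{{m}, {neg m}} :: L, GProof.cons _ _ hL (GStep.init m), fun c hc => List.mem_cons_of_mem _ hc, ?_, ?_⟩
    · have : T ({m} : Clause V) = {{m}, {neg m}} := by simp [T, un]
      rw [this]
      exact List.mem_cons_self
    · rw [gsize_cons]
      have := csize_ax m
      simp only [Finset.card_singleton]
      omega
  | cons m F hm hF ih =>
    obtain ⟨M, hM, hsub, hT, hsz⟩ := ih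
    have e1 : T (Finset.cons m F hm) = un F ∪ {{neg m}} ∪ ({F} : Cedent V).image (fun C => insert m C) := by
      ext C
      simp only [T, un, Finset.cons_eq_insert, Finset.image_insert, Finset.mem_insert,
        Finset.mem_union, Finset.mem_singleton, Finset.image_singleton]
      tauto
    refine ⟨T (Finset.cons m F hm) :: {{m}, {neg m}} :: M,
      GProof.cons _ _ (GProof.cons _ _ hM (GStep.init m)) ?_,
      fun c hc => List.mem_cons_of_mem _ (List.mem_cons_of_mem _ (hsub c hc)), List.mem_cons_self, ?_⟩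
    · rw [e1]
      refine GStep.logic (un F) {{neg m}} {F} m (Finset.singleton_nonempty _) ?_ ?_
      · have : un F ∪ {F} = T F := by
          unfold T
          rw [Finset.insert_eq, Finset.union_comm]
        rw [this]
        exact List.mem_cons_of_mem _ hT
      · exact List.mem_cons_self
    · rw [gsize_cons, gsize_cons]
      have h1 := csize_ax m
      have h2 := csize_T (Finset.cons m F hm)
      rw [Finset.card_cons] at h2 ⊢
      have h3 : (F.card + 1) * (3 * (F.card + 1) + 7) = F.card * (3 * F.card + 7) + 6 * F.card + 10 := by ring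
      omega

lemma infer (L : List (Cedent V)) (hL : GProof L) (Sk Sa Sb : Cedent V) (s : V × Bool)
    (ha : Sa ∈ L) (hb : Sb ∈ L) (h1 : Sa ⊆ insert {s} Sk)
    (h2 : Sb ⊆ Sk ∪ (Sk.filter (fun C => s ∈ C)).image (fun C => C.erase s)) :
    ∃ M : List (Cedent V), GProof M ∧ (∀ c ∈ L, c ∈ M) ∧ Sk ∈ M ∧
      gsize M ≤ gsize L + 6 * csize Sk := by
  by_cases hK : (Sk.filter (fun C => s ∈ C)).Nonempty
  · obtain ⟨K, hKd⟩ : ∃ K : Cedent V, K = (Sk.filter (fun C => s ∈ C)).image (fun C => C.erase s) := ⟨_, rfl⟩
    rw [← hKd] at h2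
    have hKn : K.Nonempty := by rw [hKd]; exact hK.image _
    have hKs : csum K ≤ csum Sk := by
      rw [hKd]
      exact (csum_image_le _ _ (fun C _ => Finset.card_erase_le)).trans (csum_mono (Finset.filter_subset _ _))
    have p1 : GProof ((Sk ∪ K) :: L) := by
      refine GProof.cons _ _ hL ?_
      have := GStep.struct (L := L) Sb (Sk ∪ K) hb
      rwa [Finset.union_eq_right.2 h2] at this
    have p2 : GProof (insert {s} Sk :: (Sk ∪ K) :: L) := by
      refine GProof.cons _ _ p1 ?_
      have := GStep.struct (L := (Sk ∪ K) :: L) Sa (insert {s} Sk) (List.mem_cons_of_mem _ ha)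
      rwa [Finset.union_eq_right.2 h1] at this
    have e : Sk = Sk ∪ Sk ∪ K.image (fun C => insert s C) := by
      rw [Finset.union_self]
      symm
      rw [Finset.union_eq_left]
      intro C hC
      rw [Finset.mem_image] at hC
      obtain ⟨D, hD, rfl⟩ := hC
      rw [hKd, Finset.mem_image] at hD
      obtain ⟨D', hD', rfl⟩ := hD
      rw [Finset.mem_filter] at hD'
      rw [Finset.insert_erase hD'.2]
      exact hD'.1
    have p3 : GProof (Sk :: insert {s} Sk :: (Sk ∪ K) :: L) := by
      refine GProof.cons _ _ p2 ?_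
      have := GStep.logic (L := insert {s} Sk :: (Sk ∪ K) :: L) Sk Sk K s hKn
        (List.mem_cons_of_mem _ List.mem_cons_self) List.mem_cons_self
      rwa [← e] at this
    refine ⟨_, p3, fun c hc => List.mem_cons_of_mem _ (List.mem_cons_of_mem _ (List.mem_cons_of_mem _ hc)),
      List.mem_cons_self, ?_⟩
    rw [gsize_cons, gsize_cons, gsize_cons]
    have q1 := csum_union Sk K
    have q2 := csum_insert ({s} : Clause V) Sk
    simp only [Finset.card_singleton] at q2
    simp only [csize_eq]
    omega
  · rw [Finset.not_nonempty_iff_eq_empty] at hK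
    rw [hK, Finset.image_empty, Finset.union_empty] at h2
    refine ⟨Sk :: L, GProof.cons _ _ hL ?_, fun c hc => List.mem_cons_of_mem _ hc, List.mem_cons_self, ?_⟩
    · have := GStep.struct (L := L) Sb Sk hb
      rwa [Finset.union_eq_right.2 h2] at this
    · rw [gsize_cons]
      omega

lemma infer_struct (L : List (Cedent V)) (hL : GProof L) (Sk Sa : Cedent V)
    (ha : Sa ∈ L) (h1 : Sa ⊆ Sk) :
    ∃ M : List (Cedent V), GProof M ∧ (∀ c ∈ L, c ∈ M) ∧ Sk ∈ M ∧
      gsize M ≤ gsize L + csize Sk := by
  refine ⟨Sk :: L, GProof.cons _ _ hL ?_, fun c hc => List.mem_cons_of_mem _ hc, List.mem_cons_self, ?_⟩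
  · have := GStep.struct (L := L) Sa Sk ha
    rwa [Finset.union_eq_right.2 h1] at this
  · rw [gsize_cons]
    omega

/-- the literals of `C` which are false under `A` -/
def fl (A : V → Bool) (C : Clause V) : Clause V := C.filter (fun l => l.2 ≠ A l.1)

lemma fl_union_tr (A : V → Bool) (C : Clause V) : fl A C ∪ tr A C = C := by
  ext l
  simp only [fl, tr, Finset.mem_union, Finset.mem_filter]
  tauto

variable {S : Cedent V} (R : Refutation S)

lemma path_props {i : ℕ} {C X : Clause V} (h : R.Path i C X) :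
    i ≤ R.n → C ∈ S ∧ X ⊆ C ∧ C \ X ⊆ R.line i := by
  induction h with
  | leaf i hi =>
    intro hin
    exact ⟨R.init_ok i hin hi, Finset.empty_subset _, by simp⟩
  | left i a b l C X hi h ih =>
    intro hin
    obtain ⟨h1, h2, h3, h4, h5, h6⟩ := R.res_ok i hin a b l hi
    obtain ⟨g1, g2, g3⟩ := ih (by omega)
    refine ⟨g1, Finset.union_subset g2 Finset.inter_subset_right, ?_⟩
    intro m hm
    rw [Finset.mem_sdiff, Finset.mem_union, Finset.mem_inter, Finset.mem_singleton] at hm
    have hm2 : m ∈ R.line a := g3 (Finset.mem_sdiff.2 ⟨hm.1, fun h => hm.2 (Or.inl h)⟩)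
    exact h5 (Finset.mem_erase.2 ⟨fun h => hm.2 (Or.inr ⟨h, hm.1⟩), hm2⟩)
  | right i a b l C X hi h ih =>
    intro hin
    obtain ⟨h1, h2, h3, h4, h5, h6⟩ := R.res_ok i hin a b l hi
    obtain ⟨g1, g2, g3⟩ := ih (by omega)
    refine ⟨g1, Finset.union_subset g2 Finset.inter_subset_right, ?_⟩
    intro m hm
    rw [Finset.mem_sdiff, Finset.mem_union, Finset.mem_inter, Finset.mem_singleton] at hm
    have hm2 : m ∈ R.line b := g3 (Finset.mem_sdiff.2 ⟨hm.1, fun h => hm.2 (Or.inl h)⟩)
    exact h6 (Finset.mem_erase.2 ⟨fun h => hm.2 (Or.inr ⟨h, hm.1⟩), hm2⟩)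

open Classical in
/-- the patterns of the line `i` -/
noncomputable def Wset (A : V → Bool) (i : ℕ) : Finset (Clause V × Clause V) :=
  (S.biUnion (fun C => C.powerset.image (fun X => (C, X)))).filter
    (fun q => ∃ X, R.Path i q.1 X ∧ q.2 = tr A X)

lemma mem_Wset (A : V → Bool) {i : ℕ} (hi : i ≤ R.n) (q : Clause V × Clause V) :
    q ∈ Wset R A i ↔ ∃ X, R.Path i q.1 X ∧ q.2 = tr A X := by
  classical
  unfold Wset
  rw [Finset.mem_filter]
  constructor
  · rintro ⟨_, h⟩; exact h
  · intro h
    refine ⟨?_, h⟩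
    obtain ⟨X, hX, hq⟩ := h
    obtain ⟨g1, g2, _⟩ := path_props R hX hi
    rw [Finset.mem_biUnion]
    refine ⟨q.1, g1, ?_⟩
    rw [Finset.mem_image]
    refine ⟨q.2, ?_, rfl⟩
    rw [Finset.mem_powerset, hq]
    exact (Finset.filter_subset _ _).trans g2

/-- the version of the clause -/
def ver (A : V → Bool) (q : Clause V × Clause V) : Clause V := fl A q.1 ∪ q.2

/-- the state of the line `i` -/
noncomputable def St (A : V → Bool) (i : ℕ) : Cedent V :=
  (Wset R A i).image (ver A) ∪ un (fl A (R.line i))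

lemma mem_St (A : V → Bool) {i : ℕ} (hi : i ≤ R.n) (D : Clause V) :
    D ∈ St R A i ↔ (∃ C X, R.Path i C X ∧ D = fl A C ∪ tr A X) ∨
      (∃ m ∈ R.line i, m.2 ≠ A m.1 ∧ D = {neg m}) := by
  unfold St
  rw [Finset.mem_union, Finset.mem_image]
  constructor
  · rintro (⟨q, hq, rfl⟩ | h)
    · rw [mem_Wset R A hi] at hq
      obtain ⟨X, hX, hq2⟩ := hq
      left
      exact ⟨q.1, X, hX, by rw [ver, hq2]⟩
    · right
      unfold un at h
      rw [Finset.mem_image] at h
      obtain ⟨m, hm, rfl⟩ := h
      unfold fl at hm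
      rw [Finset.mem_filter] at hm
      exact ⟨m, hm.1, hm.2, rfl⟩
  · rintro (⟨C, X, hX, rfl⟩ | ⟨m, hm1, hm2, rfl⟩)
    · left
      exact ⟨(C, tr A X), (mem_Wset R A hi _).2 ⟨X, hX, rfl⟩, rfl⟩
    · right
      unfold un
      rw [Finset.mem_image]
      refine ⟨m, ?_, rfl⟩
      unfold fl
      rw [Finset.mem_filter]
      exact ⟨hm1, hm2⟩

lemma csize_St (A : V → Bool) {i : ℕ} (hi : i ≤ R.n) (p w d : ℕ) (hw : ∀ C ∈ S, C.card ≤ w)
    (hd : (R.line i).card ≤ d) (F : Finset (Clause V × Clause V)) (hF : F.card ≤ p)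
    (hF2 : ∀ C X, R.Path i C X → (C, tr A X) ∈ F) :
    csize (St R A i) ≤ 1 + p * (w + 1) + 2 * d := by
  have h0 : Wset R A i ⊆ F := by
    intro q hq
    rw [mem_Wset R A hi] at hq
    obtain ⟨X, hX, hq2⟩ := hq
    have := hF2 q.1 X hX
    rwa [← hq2] at this
  have h1 : ((Wset R A i).image (ver A)).card ≤ p :=
    Finset.card_image_le.trans ((Finset.card_le_card h0).trans hF)
  have h2 : csum ((Wset R A i).image (ver A)) ≤ p * (w + 1) := by
    refine csum_le _ _ _ h1 ?_
    intro D hD
    rw [Finset.mem_image] at hD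
    obtain ⟨q, hq, rfl⟩ := hD
    rw [mem_Wset R A hi] at hq
    obtain ⟨X, hX, hq2⟩ := hq
    obtain ⟨g1, g2, _⟩ := path_props R hX hi
    refine (Finset.card_le_card ?_).trans (hw q.1 g1)
    unfold ver
    refine Finset.union_subset (Finset.filter_subset _ _) ?_
    rw [hq2]
    exact (Finset.filter_subset _ _).trans g2
  have h3 := csum_union ((Wset R A i).image (ver A)) (un (fl A (R.line i)))
  have h4 := csum_un (fl A (R.line i))
  have h5 : (fl A (R.line i)).card ≤ (R.line i).card := Finset.card_le_card (Finset.filter_subset _ _)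
  rw [csize_eq]
  unfold St
  omega

/-- the line is not a leaf whose clause is true under `A` in all literals -/
def Good (A : V → Bool) (i : ℕ) : Prop := ¬ (R.step i = Step.init ∧ fl A (R.line i) = ∅)

lemma tr_union_false (A : V → Bool) (X C : Clause V) (f : V × Bool) (hf : f.2 ≠ A f.1) :
    tr A (X ∪ ({f} ∩ C)) = tr A X := by
  ext m
  simp only [tr, Finset.mem_filter, Finset.mem_union, Finset.mem_inter, Finset.mem_singleton]
  constructor
  · rintro ⟨h | ⟨rfl, _⟩, h2⟩
    · exact ⟨h, h2⟩
    · exact absurd h2 hf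
  · rintro ⟨h, h2⟩
    exact ⟨Or.inl h, h2⟩

lemma derived (A : V → Bool) (k a b : ℕ) (f : V × Bool) (hf : f.2 ≠ A f.1) (hk : k ≤ R.n)
    (ha : a ≤ R.n) (hb : b ≤ R.n)
    (hsb : neg f ∈ R.line b) (he1 : (R.line a).erase f ⊆ R.line k)
    (he2 : (R.line b).erase (neg f) ⊆ R.line k)
    (hpa : ∀ C X, R.Path a C X → R.Path k C (X ∪ ({f} ∩ C)))
    (hpb : ∀ C X, R.Path b C X → R.Path k C (X ∪ ({neg f} ∩ C)))
    (L : List (Cedent V)) (hL : GProof L) (hSa : St R A a ∈ L) (hSb : Good R A b → St R A b ∈ L) :
    ∃ M : List (Cedent V), GProof M ∧ (∀ c ∈ L, c ∈ M) ∧ St R A k ∈ M ∧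
      gsize M ≤ gsize L + 6 * csize (St R A k) := by
  have hs : (neg f).2 = A (neg f).1 := by
    unfold neg
    simp only
    revert hf
    cases f.2 <;> cases A f.1 <;> simp
  have h1 : St R A a ⊆ insert {neg f} (St R A k) := by
    intro D hD
    rw [mem_St R A ha] at hD
    rw [Finset.mem_insert]
    rcases hD with ⟨C, X, hX, rfl⟩ | ⟨m, hm1, hm2, rfl⟩
    · right
      rw [mem_St R A hk]
      left
      exact ⟨C, _, hpa C X hX, by rw [tr_union_false A X C f hf]⟩
    · by_cases hmf : m = f
      · left; rw [hmf]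
      · right
        rw [mem_St R A hk]
        right
        exact ⟨m, he1 (Finset.mem_erase.2 ⟨hmf, hm1⟩), hm2, rfl⟩
  by_cases hgb : Good R A b
  · refine infer L hL _ _ _ (neg f) hSa (hSb hgb) h1 ?_
    intro D hD
    rw [mem_St R A hb] at hD
    rw [Finset.mem_union, Finset.mem_image]
    rcases hD with ⟨C, X, hX, rfl⟩ | ⟨m, hm1, hm2, rfl⟩
    · have hX' := hpb C X hX
      have hV : fl A C ∪ tr A (X ∪ ({neg f} ∩ C)) ∈ St R A k := by
        rw [mem_St R A hk]; left; exact ⟨C, _, hX', rfl⟩
      by_cases hsC : neg f ∈ C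
      · by_cases hsX : neg f ∈ X
        · left
          have : X ∪ ({neg f} ∩ C) = X := by
            rw [Finset.union_eq_left]
            intro m hm
            rw [Finset.mem_inter, Finset.mem_singleton] at hm
            rw [hm.1]; exact hsX
          rwa [this] at hV
        · right
          refine ⟨_, Finset.mem_filter.2 ⟨hV, ?_⟩, ?_⟩
          · rw [Finset.mem_union]
            right
            unfold tr
            rw [Finset.mem_filter]
            exact ⟨Finset.mem_union_right _ (Finset.mem_inter.2 ⟨Finset.mem_singleton_self _, hsC⟩), hs⟩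
          · ext m
            simp only [Finset.mem_erase, Finset.mem_union, fl, tr, Finset.mem_filter,
              Finset.mem_inter, Finset.mem_singleton]
            constructor
            · rintro ⟨hm0, ⟨hm1, hm2⟩ | ⟨hm1 | ⟨hm1, _⟩, hm2⟩⟩
              · exact Or.inl ⟨hm1, hm2⟩
              · exact Or.inr ⟨hm1, hm2⟩
              · exact absurd hm1 hm0
            · rintro (⟨hm1, hm2⟩ | ⟨hm1, hm2⟩)
              · refine ⟨?_, Or.inl ⟨hm1, hm2⟩⟩
                rintro rfl
                exact hm2 hs
              · refine ⟨?_, Or.inr ⟨Or.inl hm1, hm2⟩⟩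
                rintro rfl
                exact hsX hm1
      · left
        have : X ∪ ({neg f} ∩ C) = X := by
          rw [Finset.union_eq_left]
          intro m hm
          rw [Finset.mem_inter, Finset.mem_singleton] at hm
          exact absurd (hm.1 ▸ hm.2) hsC
        rwa [this] at hV
    · left
      rw [mem_St R A hk]
      right
      refine ⟨m, he2 (Finset.mem_erase.2 ⟨?_, hm1⟩), hm2, rfl⟩
      rintro rfl
      exact hm2 hs
  · unfold Good at hgb
    rw [not_not] at hgb
    obtain ⟨hb1, hb2⟩ := hgb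
    have hin : ({neg f} : Clause V) ∈ St R A k := by
      rw [mem_St R A hk]
      left
      refine ⟨_, _, hpb _ _ (Refutation.Path.leaf b hb1), ?_⟩
      rw [hb2, Finset.empty_union]
      ext m
      simp only [tr, Finset.mem_filter, Finset.mem_union, Finset.mem_inter, Finset.mem_singleton,
        Finset.notMem_empty, false_or]
      constructor
      · rintro rfl
        exact ⟨⟨rfl, hsb⟩, hs⟩
      · rintro ⟨⟨h, _⟩, _⟩
        exact h
    rw [Finset.insert_eq_of_mem hin] at h1
    obtain ⟨M, hM, h2, h3, h4⟩ := infer_struct L hL _ _ hSa h1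
    exact ⟨M, hM, h2, h3, by omega⟩

lemma good_of_mem (A : V → Bool) (i : ℕ) (f : V × Bool) (hf : f.2 ≠ A f.1) (hi : f ∈ R.line i) :
    Good R A i := by
  rintro ⟨_, h⟩
  have : f ∈ fl A (R.line i) := Finset.mem_filter.2 ⟨hi, hf⟩
  rw [h] at this
  exact absurd this (Finset.notMem_empty _)

lemma neg_neg' (l : V × Bool) : neg (neg l) = l := by simp [neg]

theorem build (A : V → Bool) (p w d : ℕ) (hw : ∀ C ∈ S, C.card ≤ w)
    (hd : ∀ i ≤ R.n, (R.line i).card ≤ d)
    (hF : ∀ i ≤ R.n, R.Needed i → ∃ F : Finset (Clause V × Clause V), F.card ≤ p ∧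
      ∀ C X, R.Path i C X → (C, tr A X) ∈ F) (k : ℕ) :
    ∃ L : List (Cedent V), GProof L ∧
      (∀ i < k, i ≤ R.n → R.Needed i → Good R A i → St R A i ∈ L) ∧
      gsize L ≤ k * (6 * (1 + p * (w + 1) + 2 * d) + w * (3 * w + 7)) := by
  induction k with
  | zero => exact ⟨[], GProof.nil, fun i hi => absurd hi (Nat.not_lt_zero _), by simp [gsize]⟩
  | succ k ih =>
    obtain ⟨L, hL, hmem, hsz⟩ := ih
    obtain ⟨B, hB⟩ : ∃ B, B = 6 * (1 + p * (w + 1) + 2 * d) + w * (3 * w + 7) := ⟨_, rfl⟩
    rw [← hB] at hsz ⊢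
    have key : (k ≤ R.n → R.Needed k → Good R A k → ∃ M : List (Cedent V), GProof M ∧
        (∀ c ∈ L, c ∈ M) ∧ St R A k ∈ M ∧ gsize M ≤ gsize L + B) := by
      intro hk hn hg
      obtain ⟨F, hF1, hF2⟩ := hF k hk hn
      have hszk := csize_St R A hk p w d hw (hd k hk) F hF1 hF2
      rcases hst : R.step k with _ | ⟨a, b, l⟩
      · have hne : (fl A (R.line k)).Nonempty := by
          rw [Finset.nonempty_iff_ne_empty]
          intro h
          exact hg ⟨hst, h⟩
        obtain ⟨M, hM1, hM2, hM3, hM4⟩ := leaf_chain L hL (fl A (R.line k)) hne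
        have hcard : (fl A (R.line k)).card ≤ w :=
          (Finset.card_le_card (Finset.filter_subset _ _)).trans (hw _ (R.init_ok k hk hst))
        have heq : St R A k = T (fl A (R.line k)) := by
          ext D
          rw [mem_St R A hk]
          unfold T un fl
          rw [Finset.mem_insert, Finset.mem_image]
          constructor
          · rintro (⟨C, X, hX, rfl⟩ | ⟨m, hm1, hm2, rfl⟩)
            · left
              cases hX with
              | leaf _ _ => simp [tr, fl]
              | left _ a' b' l' _ _ hi' _ => rw [hst] at hi'; exact absurd hi' (by simp)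
              | right _ a' b' l' _ _ hi' _ => rw [hst] at hi'; exact absurd hi' (by simp)
            · right
              exact ⟨m, Finset.mem_filter.2 ⟨hm1, hm2⟩, rfl⟩
          · rintro (rfl | ⟨m, hm, rfl⟩)
            · left
              exact ⟨_, _, Refutation.Path.leaf k hst, by simp [tr, fl]⟩
            · right
              rw [Finset.mem_filter] at hm
              exact ⟨m, hm.1, hm.2, rfl⟩
        refine ⟨M, hM1, hM2, by rw [heq]; exact hM3, ?_⟩
        have : (fl A (R.line k)).card * (3 * (fl A (R.line k)).card + 7) ≤ w * (3 * w + 7) :=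
          Nat.mul_le_mul hcard (by omega)
        omega
      · obtain ⟨h1, h2, h3, h4, h5, h6⟩ := R.res_ok k hk a b l hst
        have hna : R.Needed a := Refutation.Needed.left k a b l hn hst
        have hnb : R.Needed b := Refutation.Needed.right k a b l hn hst
        have hpa := fun C X (h : R.Path a C X) => Refutation.Path.left k a b l C X hst h
        have hpb := fun C X (h : R.Path b C X) => Refutation.Path.right k a b l C X hst h
        by_cases hl : l.2 = A l.1
        · have hf : (neg l).2 ≠ A (neg l).1 := by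
            unfold neg
            simp only
            rw [← hl]
            simp
          have hnn := neg_neg' l
          obtain ⟨M, hM1, hM2, hM3, hM4⟩ := derived R A k b a (neg l) hf hk (by omega) (by omega)
            (by rw [hnn]; exact h3) h6 (by rw [hnn]; exact h5) hpb
            (by rw [hnn]; exact hpa) L hL
            (hmem b h2 (by omega) hnb (good_of_mem R A b (neg l) hf h4))
            (fun hg => hmem a h1 (by omega) hna hg)
          exact ⟨M, hM1, hM2, hM3, by omega⟩
        · obtain ⟨M, hM1, hM2, hM3, hM4⟩ := derived R A k a b l hl hk (by omega) (by omega)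
            h4 h5 h6 hpa hpb L hL
            (hmem a h1 (by omega) hna (good_of_mem R A a l hl h3))
            (fun hg => hmem b h2 (by omega) hnb hg)
          exact ⟨M, hM1, hM2, hM3, by omega⟩
    have hmul : (k + 1) * B = k * B + B := by ring
    by_cases hc : k ≤ R.n ∧ R.Needed k ∧ Good R A k
    · obtain ⟨M, hM1, hM2, hM3, hM4⟩ := key hc.1 hc.2.1 hc.2.2
      refine ⟨M, hM1, ?_, by omega⟩
      intro i hi hin hn hg
      rcases Nat.lt_succ_iff_lt_or_eq.1 hi with h | h
      · exact hM2 _ (hmem i h hin hn hg)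
      · rw [h]; exact hM3
    · refine ⟨L, hL, ?_, by omega⟩
      intro i hi hin hn hg
      rcases Nat.lt_succ_iff_lt_or_eq.1 hi with h | h
      · exact hmem i h hin hn hg
      · rw [h] at hin hn hg
        exact absurd ⟨hin, hn, hg⟩ hc

/-- the general simulation -/
theorem simulate (h0 : (∅ : Clause V) ∉ S) (A : V → Bool) (p : ℕ) (hp : 1 ≤ p)
    (hF : ∀ i ≤ R.n, R.Needed i → ∃ F : Finset (Clause V × Clause V), F.card ≤ p ∧
      ∀ C X, R.Path i C X → (C, tr A X) ∈ F) :
    ∃ L : List (Cedent V), GProof (S :: L) ∧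
      gsize (S :: L) ≤ 35 * p * (R.size + csize S) ^ 3 := by
  obtain ⟨N, hN⟩ : ∃ N, N = R.size + csize S := ⟨_, rfl⟩
  have hw : ∀ C ∈ S, C.card ≤ csize S - 1 := by
    intro C hC
    have : C.card + 1 ≤ csum S := Finset.single_le_sum (f := fun C : Clause V => C.card + 1)
      (fun _ _ => Nat.zero_le _) hC
    rw [csize_eq]
    omega
  have hd : ∀ i ≤ R.n, (R.line i).card ≤ R.size := by
    intro i hi
    have : (R.line i).card + 1 ≤ R.size := Finset.single_le_sum
      (f := fun i => (R.line i).card + 1) (fun _ _ => Nat.zero_le _) (Finset.mem_range.2 (by omega))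
    omega
  have hn : R.n + 1 ≤ R.size := by
    unfold Refutation.size
    calc R.n + 1 = ∑ _i ∈ Finset.range (R.n + 1), 1 := by simp
      _ ≤ _ := Finset.sum_le_sum (fun i _ => by omega)
  obtain ⟨L, hL, hmem, hsz⟩ := build R A p (csize S - 1) R.size hw hd hF (R.n + 1)
  have hgood : Good R A R.n := by
    rintro ⟨h1, _⟩
    have := R.init_ok R.n le_rfl h1
    rw [R.last] at this
    exact h0 this
  have hSt := hmem R.n (Nat.lt_succ_self _) le_rfl Refutation.Needed.last hgood
  have hsub : St R A R.n ⊆ S := by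
    intro D hD
    rw [mem_St R A le_rfl] at hD
    rcases hD with ⟨C, X, hX, rfl⟩ | ⟨m, hm1, _, _⟩
    · obtain ⟨g1, g2, g3⟩ := path_props R hX le_rfl
      rw [R.last, Finset.subset_empty, Finset.sdiff_eq_empty_iff_subset] at g3
      have : X = C := Finset.Subset.antisymm g2 g3
      rw [this, fl_union_tr]
      exact g1
    · rw [R.last] at hm1
      exact absurd hm1 (Finset.notMem_empty _)
  refine ⟨L, GProof.cons _ _ hL ?_, ?_⟩
  · have := GStep.struct (L := L) (St R A R.n) S hSt
    rwa [Finset.union_eq_right.2 hsub] at this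
  · rw [gsize_cons]
    have hS1 : 1 ≤ csize S := by rw [csize_eq]; omega
    obtain ⟨w, hw'⟩ : ∃ w, w = csize S - 1 := ⟨_, rfl⟩
    rw [← hw'] at hsz
    have hw1 : w + 1 ≤ N := by omega
    have hRs : R.size ≤ N := by omega
    have hN1 : 1 ≤ N := by omega
    have hcS : csize S ≤ N := by omega
    rw [← hN]
    have b1 : p * (w + 1) ≤ p * N := Nat.mul_le_mul_left _ hw1
    have b2 : w * (3 * w + 7) ≤ N * (3 * N + 7) := Nat.mul_le_mul (by omega) (by omega)
    have b3 : 6 * (1 + p * (w + 1) + 2 * R.size) + w * (3 * w + 7) ≤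
        6 * (1 + p * N + 2 * N) + N * (3 * N + 7) := by omega
    have b4 : (R.n + 1) * (6 * (1 + p * (w + 1) + 2 * R.size) + w * (3 * w + 7)) ≤
        N * (6 * (1 + p * N + 2 * N) + N * (3 * N + 7)) := Nat.mul_le_mul (by omega) b3
    have c1 : N ≤ p * N ^ 3 := by
      calc N = 1 * N ^ 1 := by ring
        _ ≤ p * N ^ 3 := Nat.mul_le_mul hp (Nat.pow_le_pow_right hN1 (by norm_num))
    have c2 : N ^ 2 ≤ p * N ^ 3 := by
      calc N ^ 2 = 1 * N ^ 2 := by ring
        _ ≤ p * N ^ 3 := Nat.mul_le_mul hp (Nat.pow_le_pow_right hN1 (by norm_num))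
    have c3 : N ^ 3 ≤ p * N ^ 3 := by
      calc N ^ 3 = 1 * N ^ 3 := by ring
        _ ≤ p * N ^ 3 := Nat.mul_le_mul hp le_rfl
    have c4 : p * N ^ 2 ≤ p * N ^ 3 :=
      Nat.mul_le_mul le_rfl (Nat.pow_le_pow_right hN1 (by norm_num))
    have e1 : N * (6 * (1 + p * N + 2 * N) + N * (3 * N + 7)) =
        6 * N + 6 * (p * N ^ 2) + 19 * N ^ 2 + 3 * N ^ 3 := by ring
    have e2 : 35 * p * N ^ 3 = 35 * (p * N ^ 3) := by ring
    rw [e2]
    omega

end Pool.Agent.V8H46.GC
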